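import Mathlib

/-!
# `b^m`-contact manifolds without singular periodic orbits

For all `m, n ≥ 1` the closed manifold `T² × S^{2n-1}` carries a `b^m`-contact form, with critical
set `{sin z = 0}`, whose `b^m`-Reeb field has no singular periodic orbit.  With coordinates `(z, y)`
on `T² = (ℝ / 2πℤ)²` and `(p, q, u, v)` on `S^{2n-1} ⊆ ℝ × ℝ × ℝ^{n-1} × ℝ^{n-1}` the form is
`α = (p + q cos z) dz / sin^m z + q dy + (1/2) ∑ (u_i dv_i - v_i du_i)`.
-/

open scoped ContDiff Topology
open Set Filter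

noncomputable section

namespace Pool.Agent.Results.MP_4878e4_gt.NoSingularOrbit

/-! ## General definitions

`E` is a finite-dimensional real vector space, `Γ` a group of diffeomorphisms of `E` and
`h : E → ℝ` a `Γ`-invariant function; the closed manifold is `M = {h = 0} / Γ`.  Objects on `M`
are given by `Γ`-invariant objects on `E`. -/

section General

variable {E : Type*} [NormedAddCommGroup E] [NormedSpace ℝ E]

/-- `Γ` is a group of diffeomorphisms of `E` acting freely and properly discontinuously, `h` is a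
smooth `Γ`-invariant function with regular value `0`, and `M = {h = 0} / Γ` is compact (and
nonempty).  So `M` is a closed manifold of dimension `dim E - 1`. -/
structure IsClosedManifold (Γ : Subgroup (Equiv.Perm E)) (h : E → ℝ) : Prop where
  smooth : ∀ g ∈ Γ, ContDiff ℝ ∞ (g : E → E)
  free : ∀ g ∈ Γ, ∀ x, g x = x → g = 1
  properlyDiscontinuous : ∀ K : Set E, IsCompact K →
    {g : Equiv.Perm E | g ∈ Γ ∧ ∃ x ∈ K, g x ∈ K}.Finite
  contDiff : ContDiff ℝ ∞ h
  invariant : ∀ g ∈ Γ, ∀ x, h (g x) = h x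
  regular : ∀ x, h x = 0 → fderiv ℝ h x ≠ 0
  nonempty : ∃ x, h x = 0
  cocompact : ∃ K : Set E, IsCompact K ∧ ∀ x, h x = 0 → ∃ g ∈ Γ, g x ∈ K

/-- `ρ` is a (global) defining function of the nonempty closed embedded hypersurface
`Z = {ρ = 0}` of `M = {h = 0} / Γ`: it is smooth, `Γ`-invariant, and its differential along `M`
does not vanish at the points of `Z`. -/
structure IsDefiningFunction (Γ : Subgroup (Equiv.Perm E)) (h ρ : E → ℝ) : Prop where
  contDiff : ContDiff ℝ ∞ ρ
  invariant : ∀ g ∈ Γ, ∀ x, ρ (g x) = ρ x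
  nonempty : ∃ x, h x = 0 ∧ ρ x = 0
  regular : ∀ x, h x = 0 → ρ x = 0 → ∃ v, fderiv ℝ h x v = 0 ∧ fderiv ℝ ρ x v ≠ 0

/-- The fibre at `x` of the `b^m`-tangent bundle of `M = {h = 0} / Γ` along `Z = {ρ = 0}`.
Its elements are the pairs `(v, c)` with `v ∈ T_x M` and `dρ(v) = ρ^m c`; a smooth section `(X, c)`
is the same as a vector field `X` of `M` with `dρ(X) / ρ^m` smooth, i.e. tangent to `Z` to order
`m`.  The component `c` is the value of the `b^m`-form `dρ / ρ^m`. -/
def bT (m : ℕ) (h ρ : E → ℝ) (x : E) : Submodule ℝ (E × ℝ) where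
  carrier := {u | fderiv ℝ h x u.1 = 0 ∧ fderiv ℝ ρ x u.1 = ρ x ^ m * u.2}
  zero_mem' := by simp
  add_mem' := by
    rintro u w ⟨h1, h2⟩ ⟨h3, h4⟩
    refine ⟨by rw [Prod.fst_add, map_add, h1, h3, add_zero], ?_⟩
    rw [Prod.fst_add, map_add, h2, h4, Prod.snd_add]; ring
  smul_mem' := by
    rintro c u ⟨h1, h2⟩
    refine ⟨by rw [Prod.smul_fst, map_smul, h1, smul_zero], ?_⟩
    rw [Prod.smul_fst, map_smul, h2, Prod.smul_snd, smul_eq_mul, smul_eq_mul]; ring

/-- A `b^m`-form `f dρ / ρ^m + β` of degree 1, given by the ordinary 1-form `β` and the function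
`f`. -/
structure BForm (E : Type*) [NormedAddCommGroup E] [NormedSpace ℝ E] where
  /-- the ordinary part -/
  β : E → (E →L[ℝ] ℝ)
  /-- the coefficient of `dρ / ρ^m` -/
  f : E → ℝ

/-- The value of the `b^m`-form `α = f dρ / ρ^m + β` on the element `u` of the fibre of the
`b^m`-tangent bundle at `x`. -/
def BForm.eval (α : BForm E) (x : E) (u : E × ℝ) : ℝ := α.β x u.1 + α.f x * u.2

/-- The value of `dα = df ∧ dρ / ρ^m + dβ` on the elements `u`, `w` of the fibre of the
`b^m`-tangent bundle at `x`. -/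
def BForm.d (α : BForm E) (x : E) (u w : E × ℝ) : ℝ :=
  (fderiv ℝ α.β x u.1 w.1 - fderiv ℝ α.β x w.1 u.1) +
    (fderiv ℝ α.f x u.1 * w.2 - fderiv ℝ α.f x w.1 * u.2)

/-- `(M, Z, α)` is a compact `b^m`-contact manifold of dimension `2 n + 1`, where
`M = {h = 0} / Γ` and `Z = {ρ = 0}`.  The contact condition `α ∧ (dα)^n ≠ 0` is expressed by: the
restriction of `dα` to the kernel of `α` in (the odd-dimensional) fibre of the `b^m`-tangent bundle
is non-degenerate. -/
structure IsBContact (Γ : Subgroup (Equiv.Perm E)) (h ρ : E → ℝ) (m n : ℕ) (α : BForm E) :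
    Prop where
  m_pos : 1 ≤ m
  n_pos : 1 ≤ n
  finiteDimensional : FiniteDimensional ℝ E
  finrank_eq : Module.finrank ℝ E = (2 * n + 1) + 1
  closedManifold : IsClosedManifold Γ h
  definingFunction : IsDefiningFunction Γ h ρ
  contDiff_β : ContDiff ℝ ∞ α.β
  contDiff_f : ContDiff ℝ ∞ α.f
  invariant_β : ∀ g ∈ Γ, ∀ x v, α.β (g x) (fderiv ℝ (g : E → E) x v) = α.β x v
  invariant_f : ∀ g ∈ Γ, ∀ x, α.f (g x) = α.f x
  contact : ∀ x, h x = 0 → ∀ u ∈ bT m h ρ x, α.eval x u = 0 →
    (∀ w ∈ bT m h ρ x, α.eval x w = 0 → α.d x u w = 0) → u = 0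

/-- The section `(X, c)` of the `b^m`-tangent bundle is the `b^m`-Reeb field of `α`; `X` is the
corresponding vector field on `M`. -/
structure IsReeb (Γ : Subgroup (Equiv.Perm E)) (h ρ : E → ℝ) (m : ℕ) (α : BForm E)
    (X : E → E) (c : E → ℝ) : Prop where
  contDiff_X : ContDiff ℝ ∞ X
  contDiff_c : ContDiff ℝ ∞ c
  equivariant : ∀ g ∈ Γ, ∀ x, h x = 0 → X (g x) = fderiv ℝ (g : E → E) x (X x)
  mem : ∀ x, h x = 0 → (X x, c x) ∈ bT m h ρ x
  eval_eq : ∀ x, h x = 0 → α.eval x (X x, c x) = 1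
  d_eq : ∀ x, h x = 0 → ∀ w ∈ bT m h ρ x, α.d x (X x, c x) w = 0

/-- The orbit equivalence relation of `Γ` on `E`. -/
def orbitSetoid (Γ : Subgroup (Equiv.Perm E)) : Setoid E where
  r x y := ∃ g ∈ Γ, g x = y
  iseqv :=
    { refl := fun x => ⟨1, Γ.one_mem, rfl⟩
      symm := by
        rintro x y ⟨g, hg, rfl⟩
        exact ⟨g⁻¹, Γ.inv_mem hg, by simp⟩
      trans := by
        rintro x y z ⟨g, hg, rfl⟩ ⟨k, hk, rfl⟩
        exact ⟨k * g, Γ.mul_mem hk hg, rfl⟩ }

/-- The quotient space `E / Γ`, with the quotient topology; it contains `M = {h = 0} / Γ`. -/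
abbrev Quot' (Γ : Subgroup (Equiv.Perm E)) : Type _ := Quotient (orbitSetoid Γ)

/-- The point of `E / Γ` represented by `x`. -/
def toQuot (Γ : Subgroup (Equiv.Perm E)) (x : E) : Quot' Γ := Quotient.mk (orbitSetoid Γ) x

/-- `γ` is (a lift to `E` of) a singular periodic orbit of the vector field `X` of
`M = {h = 0} / Γ`: an integral curve `ℝ → M \ Z` for which both limits `lim_{t → ±∞} γ(t)` exist in
`M` and lie in `Z = {ρ = 0}`. -/
def IsSingularPeriodicOrbit (Γ : Subgroup (Equiv.Perm E)) (h ρ : E → ℝ) (X : E → E)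
    (γ : ℝ → E) : Prop :=
  (∀ t, h (γ t) = 0 ∧ ρ (γ t) ≠ 0 ∧ HasDerivAt γ (X (γ t)) t) ∧
  (∃ a, h a = 0 ∧ ρ a = 0 ∧ Tendsto (fun t => toQuot Γ (γ t)) atTop (𝓝 (toQuot Γ a))) ∧
  (∃ a, h a = 0 ∧ ρ a = 0 ∧ Tendsto (fun t => toQuot Γ (γ t)) atBot (𝓝 (toQuot Γ a)))

omit [NormedSpace ℝ E] in
/-- Continuous invariant functions along a curve converging in the quotient. -/
lemma tendsto_of_invariant {Γ : Subgroup (Equiv.Perm E)} {Y : Type*} [TopologicalSpace Y]
    {F : E → Y} (hF : Continuous F) (hinv : ∀ g ∈ Γ, ∀ x, F (g x) = F x) {γ : ℝ → E}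
    {l : Filter ℝ} {a : E} (h : Tendsto (fun t => toQuot Γ (γ t)) l (𝓝 (toQuot Γ a))) :
    Tendsto (fun t => F (γ t)) l (𝓝 (F a)) := by
  let G : Quot' Γ → Y := Quotient.lift F (by
    rintro x y ⟨g, hg, rfl⟩
    exact (hinv g hg x).symm)
  have hG : Continuous G := hF.quotient_lift _
  exact (hG.tendsto (toQuot Γ a)).comp h

end General

/-! ## Elementary lemmas on curves -/

/-- If `f → L` and `f' → κ` then `κ = 0`. -/
lemma deriv_limit_zero {f f' : ℝ → ℝ} {L κ : ℝ} {l : Filter ℝ}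
    (hl : l = atTop ∨ l = atBot) (hd : ∀ t, HasDerivAt f (f' t) t)
    (hf : Tendsto f l (𝓝 L)) (hf' : Tendsto f' l (𝓝 κ)) : κ = 0 := by
  have hmvt : ∀ t, ∃ s ∈ Ioo t (t + 1), f' s = f (t + 1) - f t := by
    intro t
    have := exists_hasDerivAt_eq_slope f f' (show t < t + 1 by linarith)
      (fun s _ => (hd s).continuousAt.continuousWithinAt) (fun s _ => hd s)
    obtain ⟨s, hs, h⟩ := this
    refine ⟨s, hs, ?_⟩
    rw [h]; simp
  choose s hs hs' using hmvt
  have hsl : Tendsto s l l := by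
    rcases hl with rfl | rfl
    · exact tendsto_atTop_mono (fun t => (hs t).1.le) tendsto_id
    · exact tendsto_atBot_mono (fun t => (hs t).2.le) (tendsto_atBot_add_const_right _ _ tendsto_id)
  have hsl' : Tendsto (fun t : ℝ => t + 1) l l := by
    rcases hl with rfl | rfl
    · exact tendsto_atTop_add_const_right _ _ tendsto_id
    · exact tendsto_atBot_add_const_right _ _ tendsto_id
  have hne : l.NeBot := by
    rcases hl with rfl | rfl <;> infer_instance
  have h1 : Tendsto (fun t => f' (s t)) l (𝓝 κ) := hf'.comp hsl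
  have h2 : Tendsto (fun t => f (t + 1) - f t) l (𝓝 (L - L)) := (hf.comp hsl').sub hf
  have h3 : (fun t => f' (s t)) = fun t => f (t + 1) - f t := funext hs'
  rw [h3] at h1
  rw [sub_self] at h2
  exact tendsto_nhds_unique h1 h2

/-- If `cos y`, `sin y` converge and `y' → κ` then `κ = 0`. -/
lemma angle_limit_zero {y y' : ℝ → ℝ} {C S κ : ℝ} {l : Filter ℝ}
    (hl : l = atTop ∨ l = atBot) (hd : ∀ t, HasDerivAt y (y' t) t)
    (hc : Tendsto (fun t => Real.cos (y t)) l (𝓝 C))
    (hs : Tendsto (fun t => Real.sin (y t)) l (𝓝 S)) (hy : Tendsto y' l (𝓝 κ)) : κ = 0 := by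
  have hne : l.NeBot := by
    rcases hl with rfl | rfl <;> infer_instance
  have h1 : C * κ = 0 := deriv_limit_zero hl (fun t => (hd t).sin) hs (hc.mul hy)
  have h2 : -S * κ = 0 := deriv_limit_zero hl (fun t => (hd t).cos) hc (hs.neg.mul hy)
  have h3 : S ^ 2 + C ^ 2 = 1 := by
    have h4 : Tendsto (fun t => Real.sin (y t) ^ 2 + Real.cos (y t) ^ 2) l (𝓝 (S ^ 2 + C ^ 2)) :=
      (hs.pow 2).add (hc.pow 2)
    simp only [Real.sin_sq_add_cos_sq] at h4
    exact tendsto_nhds_unique h4 tendsto_const_nhds |>.symm ▸ rfl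
  have h5 : κ = (S ^ 2 + C ^ 2) * κ := by rw [h3]; ring
  rw [h5]
  linear_combination C * h1 - S * h2

/-! ## The example -/

/-- The space `ℝ^{2k+4}` with coordinates `(z, y, p, q, u, v)`. -/
abbrev W (k : ℕ) := ℝ × ℝ × ℝ × ℝ × (Fin k → ℝ) × (Fin k → ℝ)

/-- coordinate forms -/
def dz (k : ℕ) : W k →L[ℝ] ℝ := ContinuousLinearMap.fst ℝ _ _
/-- coordinate forms -/
def dy (k : ℕ) : W k →L[ℝ] ℝ :=
  (ContinuousLinearMap.fst ℝ _ _).comp (ContinuousLinearMap.snd ℝ _ _)
/-- coordinate forms -/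
def dp (k : ℕ) : W k →L[ℝ] ℝ :=
  (ContinuousLinearMap.fst ℝ _ _).comp
    ((ContinuousLinearMap.snd ℝ _ _).comp (ContinuousLinearMap.snd ℝ _ _))
/-- coordinate forms -/
def dq (k : ℕ) : W k →L[ℝ] ℝ :=
  (ContinuousLinearMap.fst ℝ _ _).comp
    ((ContinuousLinearMap.snd ℝ _ _).comp
      ((ContinuousLinearMap.snd ℝ _ _).comp (ContinuousLinearMap.snd ℝ _ _)))
/-- coordinate forms -/
def du (k : ℕ) (i : Fin k) : W k →L[ℝ] ℝ :=
  (ContinuousLinearMap.proj i).comp ((ContinuousLinearMap.fst ℝ _ _).comp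
    ((ContinuousLinearMap.snd ℝ _ _).comp
      ((ContinuousLinearMap.snd ℝ _ _).comp
        ((ContinuousLinearMap.snd ℝ _ _).comp (ContinuousLinearMap.snd ℝ _ _)))))
/-- coordinate forms -/
def dv (k : ℕ) (i : Fin k) : W k →L[ℝ] ℝ :=
  (ContinuousLinearMap.proj i).comp ((ContinuousLinearMap.snd ℝ _ _).comp
    ((ContinuousLinearMap.snd ℝ _ _).comp
      ((ContinuousLinearMap.snd ℝ _ _).comp
        ((ContinuousLinearMap.snd ℝ _ _).comp (ContinuousLinearMap.snd ℝ _ _)))))

variable {k : ℕ}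

@[simp] lemma dz_apply (x : W k) : dz k x = x.1 := rfl
@[simp] lemma dy_apply (x : W k) : dy k x = x.2.1 := rfl
@[simp] lemma dp_apply (x : W k) : dp k x = x.2.2.1 := rfl
@[simp] lemma dq_apply (x : W k) : dq k x = x.2.2.2.1 := rfl
@[simp] lemma du_apply (i : Fin k) (x : W k) : du k i x = x.2.2.2.2.1 i := rfl
@[simp] lemma dv_apply (i : Fin k) (x : W k) : dv k i x = x.2.2.2.2.2 i := rfl

/-- `h = p² + q² + |u|² + |v|² - 1`. -/
def hh (k : ℕ) (x : W k) : ℝ :=
  dp k x ^ 2 + dq k x ^ 2 + ∑ i, (du k i x ^ 2 + dv k i x ^ 2) - 1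

/-- `ρ = sin z`. -/
def rr (k : ℕ) (x : W k) : ℝ := Real.sin (dz k x)

/-- `H(z) = cos z ∑_{j ≤ m} sin^{2j} z`, so that `dz / sin^m z = H dρ / ρ^m + sin^{m+2} z dz`. -/
def HH (m : ℕ) (z : ℝ) : ℝ := Real.cos z * ∑ j ∈ Finset.range (m + 1), (Real.sin z ^ 2) ^ j

lemma HH_cos (m : ℕ) (z : ℝ) :
    HH m z * Real.cos z = 1 - Real.sin z ^ m * Real.sin z ^ (m + 2) := by
  have h := mul_neg_geom_sum (Real.sin z ^ 2) (m + 1)
  have h2 : Real.cos z * Real.cos z = 1 - Real.sin z ^ 2 := by
    have := Real.sin_sq_add_cos_sq z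
    linear_combination this
  rw [HH, mul_right_comm, h2, h]
  ring

lemma contDiff_HH (m : ℕ) : ContDiff ℝ ∞ (HH m) := by
  unfold HH
  refine Real.contDiff_cos.mul ?_
  exact ContDiff.sum fun j _ => (Real.contDiff_sin.pow 2).pow j

/-- `A = p + q cos z`. -/
def AA (k : ℕ) (x : W k) : ℝ := dp k x + dq k x * Real.cos (dz k x)

/-- The differential of `A`. -/
def dAA (k : ℕ) (x : W k) : W k →L[ℝ] ℝ :=
  dp k + (Real.cos (dz k x) • dq k - (dq k x * Real.sin (dz k x)) • dz k)

lemma hasFDerivAt_AA (x : W k) : HasFDerivAt (AA k) (dAA k x) x := by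
  have h1 := (dq k).hasFDerivAt (x := x)
  have h2 := ((dz k).hasFDerivAt (x := x)).cos
  have h3 := ((dp k).hasFDerivAt (x := x)).add (h1.mul h2)
  refine h3.congr_fderiv ?_
  ext v <;> simp [dAA]

lemma contDiff_AA : ContDiff ℝ ∞ (AA k) :=
  (dp k).contDiff.add ((dq k).contDiff.mul (Real.contDiff_cos.comp (dz k).contDiff))

/-- The `b^m`-contact form. -/
def alpha (m k : ℕ) : BForm (W k) where
  β x := (AA k x * Real.sin (dz k x) ^ (m + 2)) • dz k + dq k x • dy k +
    (1 / 2 : ℝ) • ∑ i, (du k i x • dv k i - dv k i x • du k i)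
  f x := AA k x * HH m (dz k x)

lemma hasFDerivAt_f (m : ℕ) (x : W k) : HasFDerivAt (alpha m k).f
    (HH m (dz k x) • dAA k x + (AA k x * deriv (HH m) (dz k x)) • dz k) x := by
  have h1 : HasFDerivAt (fun x : W k => HH m (dz k x)) (deriv (HH m) (dz k x) • dz k) x :=
    (((contDiff_HH m).differentiable (by norm_num)).differentiableAt.hasDerivAt
      (x := dz k x)).comp_hasFDerivAt x ((dz k).hasFDerivAt (x := x))
  have h2 := (hasFDerivAt_AA x).mul h1
  refine h2.congr_fderiv ?_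
  ext v <;> simp <;> ring

/-- The derivative of the function `sin^{m+2}`. -/
lemma hasFDerivAt_G (m : ℕ) (x : W k) :
    HasFDerivAt (fun x : W k => AA k x * Real.sin (dz k x) ^ (m + 2))
    ((Real.sin (dz k x) ^ (m + 2)) • dAA k x +
      (AA k x * deriv (fun z => Real.sin z ^ (m + 2)) (dz k x)) • dz k) x := by
  have h0 : Differentiable ℝ (fun z => Real.sin z ^ (m + 2)) := Real.differentiable_sin.pow _
  have h1 : HasFDerivAt (fun x : W k => (fun z => Real.sin z ^ (m + 2)) (dz k x))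
      (deriv (fun z => Real.sin z ^ (m + 2)) (dz k x) • dz k) x :=
    (h0.differentiableAt.hasDerivAt (x := dz k x)).comp_hasFDerivAt x
      ((dz k).hasFDerivAt (x := x))
  have h2 := (hasFDerivAt_AA x).mul h1
  refine h2.congr_fderiv ?_
  ext v <;> simp <;> ring

lemma hasFDerivAt_β (m : ℕ) (x : W k) : HasFDerivAt (alpha m k).β
    (((Real.sin (dz k x) ^ (m + 2)) • dAA k x +
      (AA k x * deriv (fun z => Real.sin z ^ (m + 2)) (dz k x)) • dz k).smulRight (dz k) +
      (dq k).smulRight (dy k) +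
      (1 / 2 : ℝ) • ∑ i, ((du k i).smulRight (dv k i) - (dv k i).smulRight (du k i))) x := by
  have h1 := (hasFDerivAt_G m x).smul_const (dz k)
  have h2 := ((dq k).hasFDerivAt (x := x)).smul_const (dy k)
  have h3 : HasFDerivAt (fun x : W k => ∑ i, (du k i x • dv k i - dv k i x • du k i))
      (∑ i, ((du k i).smulRight (dv k i) - (dv k i).smulRight (du k i))) x := by
    refine HasFDerivAt.fun_sum fun i _ => ?_
    exact (((du k i).hasFDerivAt (x := x)).smul_const (dv k i)).sub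
      (((dv k i).hasFDerivAt (x := x)).smul_const (du k i))
  exact (h1.add h2).add (h3.const_smul (1 / 2 : ℝ))

/-- The value of `dα`. -/
lemma alpha_d (m : ℕ) (x : W k) (a b : W k × ℝ) : (alpha m k).d x a b =
    (dp k a.1 + Real.cos (dz k x) * dq k a.1) *
      (HH m (dz k x) * b.2 + Real.sin (dz k x) ^ (m + 2) * dz k b.1) -
    (dp k b.1 + Real.cos (dz k x) * dq k b.1) *
      (HH m (dz k x) * a.2 + Real.sin (dz k x) ^ (m + 2) * dz k a.1) +
    (dq k a.1 * dy k b.1 - dq k b.1 * dy k a.1) +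
    ∑ i, (du k i a.1 * dv k i b.1 - dv k i a.1 * du k i b.1) +
    (AA k x * deriv (HH m) (dz k x) - HH m (dz k x) * (dq k x * Real.sin (dz k x))) *
      (dz k a.1 * b.2 - dz k b.1 * a.2) := by
  rw [BForm.d, (hasFDerivAt_β m x).fderiv, (hasFDerivAt_f m x).fderiv]
  simp only [dAA, FunLike.coe_add, FunLike.coe_smul, FunLike.coe_sub, FunLike.coe_sum,
    Pi.add_apply, Pi.smul_apply, Pi.sub_apply, Finset.sum_apply,
    ContinuousLinearMap.smulRight_apply, smul_eq_mul]
  have e : ∀ a b : W k, ∑ i, (du k i a * dv k i b - dv k i a * du k i b) =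
      -∑ i, (du k i b * dv k i a - dv k i b * du k i a) := by
    intro a b
    rw [← Finset.sum_neg_distrib]
    exact Finset.sum_congr rfl fun i _ => by ring
  rw [e b.1 a.1]
  ring

lemma BForm.d_swap {E : Type*} [NormedAddCommGroup E] [NormedSpace ℝ E] (α : BForm E) (x : E)
    (u w : E × ℝ) : α.d x u w = - α.d x w u := by
  simp only [BForm.d]; ring

lemma BForm.d_sub_right {E : Type*} [NormedAddCommGroup E] [NormedSpace ℝ E] (α : BForm E) (x : E)
    (u w w' : E × ℝ) : α.d x u (w - w') = α.d x u w - α.d x u w' := by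
  simp only [BForm.d, Prod.fst_sub, Prod.snd_sub, map_sub, FunLike.coe_sub, Pi.sub_apply]; ring

lemma BForm.d_smul_right {E : Type*} [NormedAddCommGroup E] [NormedSpace ℝ E] (α : BForm E)
    (x : E) (u w : E × ℝ) (c : ℝ) : α.d x u (c • w) = c * α.d x u w := by
  simp only [BForm.d, Prod.smul_fst, Prod.smul_snd, map_smul, FunLike.coe_smul, Pi.smul_apply,
    smul_eq_mul]; ring

lemma BForm.eval_sub {E : Type*} [NormedAddCommGroup E] [NormedSpace ℝ E] (α : BForm E) (x : E)
    (w w' : E × ℝ) : α.eval x (w - w') = α.eval x w - α.eval x w' := by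
  simp only [BForm.eval, Prod.fst_sub, Prod.snd_sub, map_sub]; ring

lemma BForm.eval_smul {E : Type*} [NormedAddCommGroup E] [NormedSpace ℝ E] (α : BForm E)
    (x : E) (w : E × ℝ) (c : ℝ) : α.eval x (c • w) = c * α.eval x w := by
  simp only [BForm.eval, Prod.smul_fst, Prod.smul_snd, map_smul, smul_eq_mul]; ring

lemma hasFDerivAt_hh (x : W k) : HasFDerivAt (hh k)
    ((2 * dp k x) • dp k + (2 * dq k x) • dq k +
      ∑ i, ((2 * du k i x) • du k i + (2 * dv k i x) • dv k i)) x := by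
  have h1 := ((dp k).hasFDerivAt (x := x)).pow 2
  have h2 := ((dq k).hasFDerivAt (x := x)).pow 2
  have h3 : HasFDerivAt (fun x : W k => ∑ i, (du k i x ^ 2 + dv k i x ^ 2))
      (∑ i, ((2 * du k i x) • du k i + (2 * dv k i x) • dv k i)) x := by
    refine HasFDerivAt.fun_sum fun i _ => ?_
    have := (((du k i).hasFDerivAt (x := x)).pow 2).add (((dv k i).hasFDerivAt (x := x)).pow 2)
    refine this.congr_fderiv ?_
    simp
  refine (((h1.add h2).add h3).sub_const 1).congr_fderiv ?_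
  simp

lemma fderiv_hh (x a : W k) : fderiv ℝ (hh k) x a =
    2 * dp k x * dp k a + 2 * dq k x * dq k a +
      ∑ i, (2 * du k i x * du k i a + 2 * dv k i x * dv k i a) := by
  rw [(hasFDerivAt_hh x).fderiv]
  simp only [FunLike.coe_add, FunLike.coe_smul, FunLike.coe_sum, Pi.add_apply, Pi.smul_apply,
    Finset.sum_apply, smul_eq_mul]

lemma fderiv_rr (x a : W k) : fderiv ℝ (rr k) x a = Real.cos (dz k x) * dz k a := by
  have h := ((dz k).hasFDerivAt (x := x)).sin
  have h' : fderiv ℝ (rr k) x = Real.cos (dz k x) • dz k := h.fderiv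
  rw [h']
  simp

lemma mem_bT {m : ℕ} {x : W k} {a : W k × ℝ} : a ∈ bT m (hh k) (rr k) x ↔
    fderiv ℝ (hh k) x a.1 = 0 ∧ Real.cos (dz k x) * dz k a.1 = Real.sin (dz k x) ^ m * a.2 := by
  rw [← fderiv_rr]; exact Iff.rfl

/-- The value of `dz / sin^m z`. -/
def eta (m : ℕ) (x : W k) (a : W k × ℝ) : ℝ :=
  HH m (dz k x) * a.2 + Real.sin (dz k x) ^ (m + 2) * dz k a.1

lemma sin_mul_eta {m : ℕ} {x : W k} {a : W k × ℝ}
    (h : Real.cos (dz k x) * dz k a.1 = Real.sin (dz k x) ^ m * a.2) :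
    Real.sin (dz k x) ^ m * eta m x a = dz k a.1 := by
  have h1 := HH_cos m (dz k x)
  rw [eta]
  linear_combination (-HH m (dz k x)) * h + dz k a.1 * h1

lemma cos_mul_eta {m : ℕ} {x : W k} {a : W k × ℝ}
    (h : Real.cos (dz k x) * dz k a.1 = Real.sin (dz k x) ^ m * a.2) :
    Real.cos (dz k x) * eta m x a = a.2 := by
  have h1 := HH_cos m (dz k x)
  rw [eta]
  linear_combination (Real.sin (dz k x) ^ (m + 2)) * h + a.2 * h1

/-- The value of `dα` in terms of `dz / sin^m z`. -/
lemma alpha_d' {m : ℕ} {x : W k} {a b : W k × ℝ}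
    (ha : Real.cos (dz k x) * dz k a.1 = Real.sin (dz k x) ^ m * a.2)
    (hb : Real.cos (dz k x) * dz k b.1 = Real.sin (dz k x) ^ m * b.2) :
    (alpha m k).d x a b =
    (dp k a.1 + Real.cos (dz k x) * dq k a.1) * eta m x b -
    (dp k b.1 + Real.cos (dz k x) * dq k b.1) * eta m x a +
    (dq k a.1 * dy k b.1 - dq k b.1 * dy k a.1) +
    ∑ i, (du k i a.1 * dv k i b.1 - dv k i a.1 * du k i b.1) := by
  have h0 : dz k a.1 * b.2 - dz k b.1 * a.2 = 0 := by
    rw [← sin_mul_eta ha, ← sin_mul_eta hb, ← cos_mul_eta ha, ← cos_mul_eta hb]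
    ring
  rw [alpha_d, h0, eta, eta]
  ring

/-- The value of `α` in terms of `dz / sin^m z`. -/
lemma alpha_eval (m : ℕ) (x : W k) (a : W k × ℝ) :
    (alpha m k).eval x a = AA k x * eta m x a + dq k x * dy k a.1 +
      (1 / 2) * ∑ i, (du k i x * dv k i a.1 - dv k i x * du k i a.1) := by
  simp only [BForm.eval, alpha, eta, FunLike.coe_add, FunLike.coe_smul, FunLike.coe_sum,
    FunLike.coe_sub, Pi.add_apply, Pi.smul_apply, Pi.sub_apply, Finset.sum_apply, smul_eq_mul]
  ring

/-- The normalising factor. -/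
def NN (k : ℕ) (x : W k) : ℝ := (1 + dp k x ^ 2 + dq k x ^ 2) / 2

lemma NN_pos (x : W k) : 0 < NN k x := by unfold NN; positivity

/-- The `b^m`-Reeb field. -/
def XX (m k : ℕ) (x : W k) : W k :=
  (Real.sin (dz k x) ^ m * dp k x / NN k x, (dq k x - dp k x * Real.cos (dz k x)) / NN k x, 0, 0,
    fun i => - dv k i x / NN k x, fun i => du k i x / NN k x)

/-- The value of `dρ / ρ^m` on the `b^m`-Reeb field. -/
def cc (k : ℕ) (x : W k) : ℝ := Real.cos (dz k x) * dp k x / NN k x

lemma rel_XX (m : ℕ) (x : W k) :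
    Real.cos (dz k x) * dz k (XX m k x, cc k x).1 = Real.sin (dz k x) ^ m * (XX m k x, cc k x).2 := by
  simp only [XX, cc, dz_apply]
  ring

lemma eta_XX (m : ℕ) (x : W k) : eta m x (XX m k x, cc k x) = dp k x / NN k x := by
  have h1 := HH_cos m (dz k x)
  have h2 : dz k (XX m k x) = Real.sin (dz k x) ^ m * dp k x / NN k x := rfl
  rw [eta, h2]
  simp only [cc]
  linear_combination (dp k x / NN k x) * h1

lemma mem_bT_XX (m : ℕ) (x : W k) : (XX m k x, cc k x) ∈ bT m (hh k) (rr k) x := by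
  rw [mem_bT]
  refine ⟨?_, rel_XX m x⟩
  rw [fderiv_hh]
  have h : ∀ i : Fin k, 2 * du k i x * du k i (XX m k x) + 2 * dv k i x * dv k i (XX m k x) = 0 := by
    intro i
    simp only [XX, du_apply, dv_apply]
    ring
  rw [Finset.sum_eq_zero fun i _ => h i]
  simp [XX]

lemma hh_eq {x : W k} (hx : hh k x = 0) :
    ∑ i, (du k i x ^ 2 + dv k i x ^ 2) = 1 - dp k x ^ 2 - dq k x ^ 2 := by
  unfold hh at hx; linarith

lemma eval_XX (m : ℕ) {x : W k} (hx : hh k x = 0) :
    (alpha m k).eval x (XX m k x, cc k x) = 1 := by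
  rw [alpha_eval, eta_XX]
  have h : ∀ i : Fin k, du k i x * dv k i (XX m k x) - dv k i x * du k i (XX m k x) =
      (du k i x ^ 2 + dv k i x ^ 2) * (NN k x)⁻¹ := by
    intro i
    simp only [XX, du_apply, dv_apply]
    ring
  have h1 : ∑ i, (du k i x * dv k i (XX m k x) - dv k i x * du k i (XX m k x)) =
      (1 - dp k x ^ 2 - dq k x ^ 2) * (NN k x)⁻¹ := by
    rw [Finset.sum_congr rfl fun i _ => h i, ← Finset.sum_mul, hh_eq hx]
  have h2 : dy k (XX m k x) = (dq k x - dp k x * Real.cos (dz k x)) / NN k x := rfl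
  have hN := (NN_pos x).ne'
  simp only
  rw [h1, h2, AA]
  have h3 : NN k x = (1 + dp k x ^ 2 + dq k x ^ 2) / 2 := rfl
  field_simp
  rw [h3]
  ring

lemma d_XX (m : ℕ) (x : W k) {w : W k × ℝ} (hw : w ∈ bT m (hh k) (rr k) x) :
    (alpha m k).d x (XX m k x, cc k x) w = 0 := by
  rw [mem_bT] at hw
  rw [alpha_d' (rel_XX m x) hw.2, eta_XX]
  have h : ∀ i : Fin k, du k i (XX m k x) * dv k i w.1 - dv k i (XX m k x) * du k i w.1 =
      (2 * du k i x * du k i w.1 + 2 * dv k i x * dv k i w.1) * (-(1 / 2) * (NN k x)⁻¹) := by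
    intro i
    simp only [XX, du_apply, dv_apply]
    ring
  have h1 := hw.1
  rw [fderiv_hh] at h1
  have h2 : ∑ i, (du k i (XX m k x) * dv k i w.1 - dv k i (XX m k x) * du k i w.1) =
      -(2 * dp k x * dp k w.1 + 2 * dq k x * dq k w.1) * (-(1 / 2) * (NN k x)⁻¹) := by
    rw [Finset.sum_congr rfl fun i _ => h i, ← Finset.sum_mul]
    congr 1
    linarith
  have h3 : dp k (XX m k x) = 0 := rfl
  have h4 : dq k (XX m k x) = 0 := rfl
  have h5 : dy k (XX m k x) = (dq k x - dp k x * Real.cos (dz k x)) / NN k x := rfl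
  simp only
  rw [h2, h3, h4, h5]
  ring

/-- The Liouville vector. -/
def nu (k : ℕ) (x : W k) : W k × ℝ :=
  ((0, 0, dp k x, dq k x, fun i => du k i x / 2, fun i => dv k i x / 2), 0)

lemma rel_nu (m : ℕ) (x : W k) :
    Real.cos (dz k x) * dz k (nu k x).1 = Real.sin (dz k x) ^ m * (nu k x).2 := by
  simp [nu]

lemma eta_nu (m : ℕ) (x : W k) : eta m x (nu k x) = 0 := by simp [eta, nu]

lemma eval_nu (m : ℕ) (x : W k) : (alpha m k).eval x (nu k x) = 0 := by
  rw [alpha_eval, eta_nu]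
  have h : ∀ i : Fin k, du k i x * dv k i (nu k x).1 - dv k i x * du k i (nu k x).1 = 0 := by
    intro i
    simp only [nu, du_apply, dv_apply]
    ring
  rw [Finset.sum_eq_zero fun i _ => h i]
  simp [nu]

lemma fderiv_nu {x : W k} (hx : hh k x = 0) :
    fderiv ℝ (hh k) x (nu k x).1 = 1 + dp k x ^ 2 + dq k x ^ 2 := by
  rw [fderiv_hh]
  have h : ∀ i : Fin k, 2 * du k i x * du k i (nu k x).1 + 2 * dv k i x * dv k i (nu k x).1 =
      du k i x ^ 2 + dv k i x ^ 2 := by
    intro i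
    simp only [nu, du_apply, dv_apply]
    ring
  rw [Finset.sum_congr rfl fun i _ => h i, hh_eq hx]
  simp only [nu, dp_apply, dq_apply]
  ring

lemma d_nu (m : ℕ) (x : W k) {a : W k × ℝ}
    (ha : Real.cos (dz k x) * dz k a.1 = Real.sin (dz k x) ^ m * a.2) :
    (alpha m k).d x a (nu k x) = - (alpha m k).eval x a := by
  rw [alpha_d' ha (rel_nu m x), alpha_eval, eta_nu]
  have h : ∀ i : Fin k, du k i a.1 * dv k i (nu k x).1 - dv k i a.1 * du k i (nu k x).1 =
      (du k i x * dv k i a.1 - dv k i x * du k i a.1) * (-(1 / 2)) := by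
    intro i
    simp only [nu, du_apply, dv_apply]
    ring
  rw [Finset.sum_congr rfl fun i _ => h i, ← Finset.sum_mul]
  have h1 : dp k (nu k x).1 = dp k x := rfl
  have h2 : dq k (nu k x).1 = dq k x := rfl
  have h3 : dy k (nu k x).1 = 0 := rfl
  rw [h1, h2, h3, AA]
  ring

/-- The contact condition. -/
lemma contact_alpha (m : ℕ) {x : W k} (hx : hh k x = 0) {a : W k × ℝ}
    (ha : a ∈ bT m (hh k) (rr k) x) (he : (alpha m k).eval x a = 0)
    (hd : ∀ w ∈ bT m (hh k) (rr k) x, (alpha m k).eval x w = 0 → (alpha m k).d x a w = 0) :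
    a = 0 := by
  have ha' := (mem_bT.1 ha).2
  have hD : (1 + dp k x ^ 2 + dq k x ^ 2) ≠ 0 := by positivity
  -- `dα(a, ·)` vanishes on the whole ambient fibre
  have key : ∀ w : W k × ℝ, Real.cos (dz k x) * dz k w.1 = Real.sin (dz k x) ^ m * w.2 →
      (alpha m k).d x a w = 0 := by
    intro w hw
    set s : ℝ := fderiv ℝ (hh k) x w.1 / (1 + dp k x ^ 2 + dq k x ^ 2) with hs
    set t : ℝ := (alpha m k).eval x w with ht
    have h1 := mem_bT.1 (mem_bT_XX m x)
    have h2 : (w - s • nu k x) - t • (XX m k x, cc k x) ∈ bT m (hh k) (rr k) x := by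
      rw [mem_bT]
      constructor
      · rw [Prod.fst_sub, Prod.fst_sub, Prod.smul_fst, Prod.smul_fst, map_sub, map_sub, map_smul,
          map_smul, h1.1, fderiv_nu hx, hs, smul_zero, sub_zero, smul_eq_mul,
          div_mul_cancel₀ _ hD, sub_self]
      · have h3 := rel_nu m x
        have h4 := rel_XX m x
        simp only [Prod.fst_sub, Prod.smul_fst, Prod.snd_sub, Prod.smul_snd, map_sub, map_smul,
          smul_eq_mul] at h3 h4 ⊢
        linear_combination hw - s * h3 - t * h4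
    have h3 : (alpha m k).eval x ((w - s • nu k x) - t • (XX m k x, cc k x)) = 0 := by
      rw [BForm.eval_sub, BForm.eval_sub, BForm.eval_smul, BForm.eval_smul, eval_nu, eval_XX m hx,
        ht]
      ring
    have h4 := hd _ h2 h3
    rw [BForm.d_sub_right, BForm.d_sub_right, BForm.d_smul_right, BForm.d_smul_right, d_nu m x ha',
      he, BForm.d_swap _ _ a (XX m k x, cc k x), d_XX m x ha] at h4
    linarith
  have hsum0 : ∀ f g : Fin k → ℝ, (∀ i, g i = 0) → ∑ i, f i * g i = 0 := fun f g h =>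
    Finset.sum_eq_zero fun i _ => by rw [h i, mul_zero]
  have hcs := HH_cos m (dz k x)
  -- the test vectors
  have k1 : dp k a.1 + Real.cos (dz k x) * dq k a.1 = 0 := by
    have hrel : Real.cos (dz k x) * dz k ((Real.sin (dz k x) ^ m, 0, 0, 0, 0, 0) : W k) =
        Real.sin (dz k x) ^ m * Real.cos (dz k x) := by simp only [dz_apply]; ring
    have h := key ((Real.sin (dz k x) ^ m, 0, 0, 0, 0, 0), Real.cos (dz k x)) hrel
    rw [alpha_d' ha' hrel] at h
    have he1 : eta m x ((Real.sin (dz k x) ^ m, 0, 0, 0, 0, 0), Real.cos (dz k x)) = 1 := by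
      simp only [eta, dz_apply] at hcs ⊢
      linear_combination hcs
    rw [he1] at h
    simpa using h
  have k2 : dq k a.1 = 0 := by
    have hrel : Real.cos (dz k x) * dz k ((0, 1, 0, 0, 0, 0) : W k) =
        Real.sin (dz k x) ^ m * 0 := by simp
    have h := key ((0, 1, 0, 0, 0, 0), 0) hrel
    rw [alpha_d' ha' hrel] at h
    simpa [eta] using h
  have k3 : eta m x a = 0 := by
    have hrel : Real.cos (dz k x) * dz k ((0, 0, 1, 0, 0, 0) : W k) =
        Real.sin (dz k x) ^ m * 0 := by simp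
    have h := key ((0, 0, 1, 0, 0, 0), 0) hrel
    rw [alpha_d' ha' hrel] at h
    have he1 : eta m x (((0, 0, 1, 0, 0, 0) : W k), (0 : ℝ)) = 0 := by simp [eta]
    rw [he1] at h
    simpa using h
  have k4 : dy k a.1 = 0 := by
    have hrel : Real.cos (dz k x) * dz k ((0, 0, 0, 1, 0, 0) : W k) =
        Real.sin (dz k x) ^ m * 0 := by simp
    have h := key ((0, 0, 0, 1, 0, 0), 0) hrel
    rw [alpha_d' ha' hrel, k3] at h
    simpa [eta] using h
  have k5 : ∀ j, du k j a.1 = 0 := by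
    intro j
    have hrel : Real.cos (dz k x) * dz k ((0, 0, 0, 0, 0, Pi.single j 1) : W k) =
        Real.sin (dz k x) ^ m * 0 := by simp
    have h := key ((0, 0, 0, 0, 0, Pi.single j 1), 0) hrel
    rw [alpha_d' ha' hrel] at h
    simpa [eta, Pi.single_apply] using h
  have k6 : ∀ j, dv k j a.1 = 0 := by
    intro j
    have hrel : Real.cos (dz k x) * dz k ((0, 0, 0, 0, Pi.single j 1, 0) : W k) =
        Real.sin (dz k x) ^ m * 0 := by simp
    have h := key ((0, 0, 0, 0, Pi.single j 1, 0), 0) hrel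
    rw [alpha_d' ha' hrel] at h
    simpa [eta, Pi.single_apply] using h
  have k7 : dz k a.1 = 0 := by rw [← sin_mul_eta ha', k3, mul_zero]
  have k8 : a.2 = 0 := by rw [← cos_mul_eta ha', k3, mul_zero]
  have k9 : dp k a.1 = 0 := by rw [k2] at k1; linarith
  obtain ⟨⟨z, y, p, q, u, v⟩, c⟩ := a
  simp only [dz_apply, dy_apply, dp_apply, dq_apply, du_apply, dv_apply] at k2 k4 k5 k6 k7 k8 k9
  subst k2 k4 k7 k8 k9
  have hu : u = 0 := funext k5
  have hv : v = 0 := funext k6
  subst hu hv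
  rfl

/-! ### The manifold `T² × S^{2n-1}` -/

/-- The translation of the coordinates `z`, `y` by `2πa`, `2πb`. -/
def trans (k : ℕ) (a b : ℤ) : Equiv.Perm (W k) where
  toFun x := (x.1 + 2 * Real.pi * a, x.2.1 + 2 * Real.pi * b, x.2.2)
  invFun x := (x.1 - 2 * Real.pi * a, x.2.1 - 2 * Real.pi * b, x.2.2)
  left_inv x := by simp
  right_inv x := by simp

/-- The group of the translations of the coordinates `z`, `y` by integer multiples of `2π`. -/
def GG (k : ℕ) : Subgroup (Equiv.Perm (W k)) where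
  carrier := {g | ∃ a b : ℤ, g = trans k a b}
  one_mem' := ⟨0, 0, by ext x <;> simp [trans]⟩
  mul_mem' := by
    rintro g h ⟨a, b, rfl⟩ ⟨c, d, rfl⟩
    refine ⟨a + c, b + d, ?_⟩
    ext x
    all_goals simp [trans]
    all_goals try ring
  inv_mem' := by
    rintro g ⟨a, b, rfl⟩
    refine ⟨-a, -b, ?_⟩
    ext x
    all_goals simp [trans, Equiv.Perm.inv_def]
    all_goals try ring

lemma cos_trans (z : ℝ) (a : ℤ) : Real.cos (z + 2 * Real.pi * a) = Real.cos z := by
  rw [show 2 * Real.pi * (a : ℝ) = a * (2 * Real.pi) by ring, Real.cos_add_int_mul_two_pi]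

lemma sin_trans (z : ℝ) (a : ℤ) : Real.sin (z + 2 * Real.pi * a) = Real.sin z := by
  rw [show 2 * Real.pi * (a : ℝ) = a * (2 * Real.pi) by ring, Real.sin_add_int_mul_two_pi]

lemma trans_eq (a b : ℤ) : (trans k a b : W k → W k) =
    fun x => x + (2 * Real.pi * a, 2 * Real.pi * b, 0) := by
  funext x
  simp [trans, Prod.ext_iff]

lemma fderiv_trans (a b : ℤ) (x v : W k) : fderiv ℝ (trans k a b : W k → W k) x v = v := by
  rw [trans_eq, fderiv_add_const]; simp

lemma isClosedManifold (k : ℕ) : IsClosedManifold (GG k) (hh k) where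
  smooth := by
    rintro g ⟨a, b, rfl⟩
    rw [trans_eq]
    exact contDiff_id.add contDiff_const
  free := by
    rintro g ⟨a, b, rfl⟩ x hx
    have h1 := congrArg Prod.fst hx
    have h2 := congrArg (fun x => x.2.1) hx
    simp only [trans, Equiv.coe_fn_mk] at h1 h2
    have h3 : 2 * Real.pi * a = 0 := by linarith
    have h4 : 2 * Real.pi * b = 0 := by linarith
    ext y
    all_goals simp [trans, h3, h4]
  properlyDiscontinuous := by
    intro K hK
    obtain ⟨C, hC⟩ := hK.isBounded.exists_norm_le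
    obtain ⟨N, hN⟩ := exists_nat_ge (2 * C)
    have hfin : (Set.Icc (-(N : ℤ)) N ×ˢ Set.Icc (-(N : ℤ)) N : Set (ℤ × ℤ)).Finite :=
      (Set.finite_Icc _ _).prod (Set.finite_Icc _ _)
    refine (hfin.image (fun c : ℤ × ℤ => trans k c.1 c.2)).subset ?_
    rintro g ⟨⟨a, b, rfl⟩, x, hx, hgx⟩
    refine ⟨(a, b), ?_, rfl⟩
    have n1 := hC _ hx
    have n2 := hC _ hgx
    have aux : ∀ (c : ℤ) (s : ℝ), |s| ≤ C → |s + 2 * Real.pi * c| ≤ C →
        c ∈ Set.Icc (-(N : ℤ)) N := by
      intro c s h1 h2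
      have hpi := Real.pi_gt_three
      have h3 : |2 * Real.pi * (c : ℝ)| ≤ 2 * C := by
        have : 2 * Real.pi * (c : ℝ) = (s + 2 * Real.pi * c) - s := by ring
        rw [this]
        calc |(s + 2 * Real.pi * c) - s| ≤ |s + 2 * Real.pi * c| + |s| := abs_sub _ _
          _ ≤ 2 * C := by linarith
      have h4 : |(c : ℝ)| ≤ N := by
        rw [abs_mul, abs_of_pos (by positivity : (0 : ℝ) < 2 * Real.pi)] at h3
        have := abs_nonneg (c : ℝ)
        nlinarith
      rw [abs_le] at h4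
      constructor
      · exact_mod_cast h4.1
      · exact_mod_cast h4.2
    have p1 : |x.1| ≤ C := (norm_fst_le x).trans n1
    have p2 : |x.2.1| ≤ C := (norm_fst_le x.2).trans ((norm_snd_le x).trans n1)
    have p3 : |x.1 + 2 * Real.pi * a| ≤ C := (norm_fst_le (trans k a b x)).trans n2
    have p4 : |x.2.1 + 2 * Real.pi * b| ≤ C :=
      (norm_fst_le (trans k a b x).2).trans ((norm_snd_le (trans k a b x)).trans n2)
    exact ⟨aux a _ p1 p3, aux b _ p2 p4⟩
  contDiff := by
    unfold hh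
    refine ContDiff.sub (((dp k).contDiff.pow 2).add ((dq k).contDiff.pow 2) |>.add ?_)
      contDiff_const
    exact ContDiff.sum fun i _ => ((du k i).contDiff.pow 2).add ((dv k i).contDiff.pow 2)
  invariant := by
    rintro g ⟨a, b, rfl⟩ x
    rfl
  regular := by
    intro x hx h
    have h1 := fderiv_nu hx
    rw [h] at h1
    simp only [zero_apply] at h1
    have : 0 < 1 + dp k x ^ 2 + dq k x ^ 2 := by positivity
    linarith
  nonempty := ⟨(0, 0, 1, 0, 0, 0), by simp [hh]⟩
  cocompact := by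
    refine ⟨Set.Icc (0, 0, -1, -1, -1, -1) (2 * Real.pi, 2 * Real.pi, 1, 1, 1, 1),
      isCompact_Icc, fun x hx => ?_⟩
    have hpi := Real.pi_pos
    have hs : (0 : ℝ) < 2 * Real.pi := by positivity
    have aux : ∀ s : ℝ, ∃ a : ℤ, 0 ≤ s + 2 * Real.pi * a ∧ s + 2 * Real.pi * a ≤ 2 * Real.pi := by
      intro s
      refine ⟨-⌊s / (2 * Real.pi)⌋, ?_, ?_⟩
      · have := Int.floor_le (s / (2 * Real.pi))
        rw [le_div_iff₀ hs] at this
        push_cast; linarith
      · have := (Int.lt_floor_add_one (s / (2 * Real.pi))).le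
        rw [div_le_iff₀ hs] at this
        push_cast; linarith
    obtain ⟨a, ha1, ha2⟩ := aux x.1
    obtain ⟨b, hb1, hb2⟩ := aux x.2.1
    have hsum : ∑ i, (du k i x ^ 2 + dv k i x ^ 2) = 1 - dp k x ^ 2 - dq k x ^ 2 := hh_eq hx
    have hnn : 0 ≤ ∑ i, (du k i x ^ 2 + dv k i x ^ 2) :=
      Finset.sum_nonneg fun i _ => by positivity
    have hp : |x.2.2.1| ≤ 1 := by
      rw [← sq_le_one_iff_abs_le_one]
      have : dp k x = x.2.2.1 := rfl
      rw [← this]
      nlinarith [sq_nonneg (dq k x)]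
    have hq : |x.2.2.2.1| ≤ 1 := by
      rw [← sq_le_one_iff_abs_le_one]
      have : dq k x = x.2.2.2.1 := rfl
      rw [← this]
      nlinarith [sq_nonneg (dp k x)]
    have hi : ∀ i, du k i x ^ 2 + dv k i x ^ 2 ≤ 1 := by
      intro i
      have : du k i x ^ 2 + dv k i x ^ 2 ≤ ∑ i, (du k i x ^ 2 + dv k i x ^ 2) :=
        Finset.single_le_sum (f := fun i => du k i x ^ 2 + dv k i x ^ 2)
          (fun i _ => by positivity) (Finset.mem_univ i)
      nlinarith [sq_nonneg (dp k x), sq_nonneg (dq k x)]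
    have hu : ∀ i, |x.2.2.2.2.1 i| ≤ 1 := by
      intro i
      rw [← sq_le_one_iff_abs_le_one]
      have := hi i
      have h0 : du k i x = x.2.2.2.2.1 i := rfl
      rw [← h0]
      nlinarith [sq_nonneg (dv k i x)]
    have hv : ∀ i, |x.2.2.2.2.2 i| ≤ 1 := by
      intro i
      rw [← sq_le_one_iff_abs_le_one]
      have := hi i
      have h0 : dv k i x = x.2.2.2.2.2 i := rfl
      rw [← h0]
      nlinarith [sq_nonneg (du k i x)]
    rw [abs_le] at hp hq
    refine ⟨trans k a b, ⟨a, b, rfl⟩, ?_⟩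
    constructor
    · exact ⟨ha1, hb1, hp.1, hq.1, fun i => (abs_le.1 (hu i)).1, fun i => (abs_le.1 (hv i)).1⟩
    · exact ⟨ha2, hb2, hp.2, hq.2, fun i => (abs_le.1 (hu i)).2, fun i => (abs_le.1 (hv i)).2⟩

lemma isDefiningFunction (k : ℕ) : IsDefiningFunction (GG k) (hh k) (rr k) where
  contDiff := Real.contDiff_sin.comp (dz k).contDiff
  invariant := by
    rintro g ⟨a, b, rfl⟩ x
    exact sin_trans _ _
  nonempty := ⟨(0, 0, 1, 0, 0, 0), by simp [hh], by simp [rr]⟩
  regular := by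
    intro x hx hr
    refine ⟨(1, 0, 0, 0, 0, 0), ?_, ?_⟩
    · rw [fderiv_hh]; simp
    · rw [fderiv_rr]
      simp only [dz_apply, mul_one]
      intro h
      have := Real.sin_sq_add_cos_sq x.1
      have h2 : Real.sin x.1 = 0 := hr
      rw [h, h2] at this
      norm_num at this

theorem isBContact (m k : ℕ) (hm : 1 ≤ m) :
    IsBContact (GG k) (hh k) (rr k) m (k + 1) (alpha m k) where
  m_pos := hm
  n_pos := by omega
  finiteDimensional := inferInstance
  finrank_eq := by simp; omega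
  closedManifold := isClosedManifold k
  definingFunction := isDefiningFunction k
  contDiff_β := by
    have h1 : ContDiff ℝ ∞ (fun x : W k => AA k x * Real.sin (dz k x) ^ (m + 2)) :=
      contDiff_AA.mul ((Real.contDiff_sin.comp (dz k).contDiff).pow _)
    have h2 : ContDiff ℝ ∞ (fun x : W k =>
        (AA k x * Real.sin (dz k x) ^ (m + 2)) • dz k + dq k x • dy k) :=
      (h1.smul contDiff_const).add ((dq k).contDiff.smul contDiff_const)
    have h3 : ContDiff ℝ ∞ (fun x : W k =>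
        ∑ i, (du k i x • dv k i - dv k i x • du k i)) := by
      refine ContDiff.sum fun i _ => ?_
      exact ((du k i).contDiff.smul contDiff_const).sub ((dv k i).contDiff.smul contDiff_const)
    exact h2.add (h3.const_smul (1 / 2 : ℝ))
  contDiff_f := contDiff_AA.mul ((contDiff_HH m).comp (dz k).contDiff)
  invariant_β := by
    rintro g ⟨a, b, rfl⟩ x v
    rw [fderiv_trans]
    have h1 : dz k (trans k a b x) = dz k x + 2 * Real.pi * a := rfl
    have h2 : AA k (trans k a b x) = AA k x := by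
      simp only [AA, h1, cos_trans]
      rfl
    have h3 : (alpha m k).β (trans k a b x) = (alpha m k).β x := by
      simp only [alpha, h2, h1, sin_trans]
      rfl
    rw [h3]
  invariant_f := by
    rintro g ⟨a, b, rfl⟩ x
    have h1 : dz k (trans k a b x) = dz k x + 2 * Real.pi * a := rfl
    have h2 : AA k (trans k a b x) = AA k x := by
      simp only [AA, h1, cos_trans]
      rfl
    simp only [alpha, HH, h2, h1, sin_trans, cos_trans]
  contact := fun x hx a ha he hd => contact_alpha m hx ha he hd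

theorem isReeb (m k : ℕ) : IsReeb (GG k) (hh k) (rr k) m (alpha m k) (XX m k) (cc k) where
  contDiff_X := by
    have hN : ContDiff ℝ ∞ (NN k) :=
      ((contDiff_const.add ((dp k).contDiff.pow 2)).add ((dq k).contDiff.pow 2)).div_const _
    have hN0 : ∀ x : W k, NN k x ≠ 0 := fun x => (NN_pos x).ne'
    have hz : ContDiff ℝ ∞ (fun x : W k => Real.sin (dz k x) ^ m * dp k x / NN k x) :=
      (((Real.contDiff_sin.comp (dz k).contDiff).pow _).mul (dp k).contDiff).div hN hN0
    have hy : ContDiff ℝ ∞ (fun x : W k =>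
        (dq k x - dp k x * Real.cos (dz k x)) / NN k x) :=
      ((dq k).contDiff.sub ((dp k).contDiff.mul (Real.contDiff_cos.comp (dz k).contDiff))).div
        hN hN0
    refine hz.prodMk (hy.prodMk (contDiff_const.prodMk (contDiff_const.prodMk
      (ContDiff.prodMk ?_ ?_))))
    · exact contDiff_pi.2 fun i => ((dv k i).contDiff.neg).div hN hN0
    · exact contDiff_pi.2 fun i => ((du k i).contDiff).div hN hN0
  contDiff_c := by
    have hN : ContDiff ℝ ∞ (NN k) :=
      ((contDiff_const.add ((dp k).contDiff.pow 2)).add ((dq k).contDiff.pow 2)).div_const _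
    have hN0 : ∀ x : W k, NN k x ≠ 0 := fun x => (NN_pos x).ne'
    exact ((Real.contDiff_cos.comp (dz k).contDiff).mul (dp k).contDiff).div hN hN0
  equivariant := by
    rintro g ⟨a, b, rfl⟩ x _
    rw [fderiv_trans]
    have h1 : dz k (trans k a b x) = dz k x + 2 * Real.pi * a := rfl
    simp only [XX, h1, sin_trans, cos_trans]
    rfl
  mem := fun x _ => mem_bT_XX m x
  eval_eq := fun x hx => eval_XX m hx
  d_eq := fun x _ w hw => d_XX m x hw

/-! ### The dynamics -/

/-- The function `cos z` has no common limit at both ends of an orbit with `p ≠ 0`. -/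
lemma cos_limits_ne {z : ℝ → ℝ} {c C : ℝ} {m : ℕ} (hc : c ≠ 0)
    (hd : ∀ t, HasDerivAt z (c * Real.sin (z t) ^ m) t) (hs : ∀ t, Real.sin (z t) ≠ 0)
    (h1 : Tendsto (fun t => Real.cos (z t)) atTop (𝓝 C))
    (h2 : Tendsto (fun t => Real.cos (z t)) atBot (𝓝 C)) : False := by
  have hcont : Continuous z := continuous_iff_continuousAt.2 fun t => (hd t).continuousAt
  have hscont : Continuous (fun t => Real.sin (z t)) := Real.continuous_sin.comp hcont
  -- `sin z` has a constant sign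
  have hsign : (∀ t, 0 < Real.sin (z t)) ∨ (∀ t, Real.sin (z t) < 0) := by
    by_contra hcon
    push Not at hcon
    obtain ⟨⟨t1, ht1⟩, t2, ht2⟩ := hcon
    have : (0 : ℝ) ∈ Set.range (fun t => Real.sin (z t)) :=
      mem_range_of_exists_le_of_exists_ge hscont ⟨t1, ht1⟩ ⟨t2, ht2⟩
    obtain ⟨t, ht⟩ := this
    exact hs t ht
  -- the derivative of `cos z`
  have hder : ∀ t, HasDerivAt (fun t => Real.cos (z t)) (-c * Real.sin (z t) ^ (m + 1)) t := by
    intro t
    have := (hd t).cos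
    refine this.congr_deriv ?_
    ring
  have hpos : ∀ e : ℝ, (∀ t, 0 < e * (-c * Real.sin (z t) ^ (m + 1))) → False := by
    intro e he
    have hmono : StrictMono (fun t => e * Real.cos (z t)) := by
      refine strictMono_of_deriv_pos fun t => ?_
      rw [((hder t).const_mul e).deriv]
      exact he t
    have l1 : Tendsto (fun t => e * Real.cos (z t)) atTop (𝓝 (e * C)) := h1.const_mul e
    have l2 : Tendsto (fun t => e * Real.cos (z t)) atBot (𝓝 (e * C)) := h2.const_mul e
    have g1 : e * Real.cos (z 0) < e * Real.cos (z 1) := hmono one_pos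
    have g2 : e * Real.cos (z 1) ≤ e * C := hmono.monotone.ge_of_tendsto l1 1
    have g3 : e * C ≤ e * Real.cos (z 0) := hmono.monotone.le_of_tendsto l2 0
    linarith
  have hc2 : 0 < c ^ 2 := by positivity
  rcases hsign with h | h
  · refine hpos (-c) fun t => ?_
    have := pow_pos (h t) (m + 1)
    nlinarith
  · rcases Nat.even_or_odd (m + 1) with hm | hm
    · refine hpos (-c) fun t => ?_
      have := hm.pow_pos (hs t)
      nlinarith
    · refine hpos c fun t => ?_
      have := hm.pow_neg_iff.2 (h t)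
      nlinarith

/-- At an end of a singular periodic orbit: `u = v = 0` and `q = p cos z`. -/
lemma end_analysis {m : ℕ} {γ : ℝ → W k} {l : Filter ℝ} (hl : l = atTop ∨ l = atBot)
    (hγ : ∀ t, HasDerivAt γ (XX m k (γ t)) t) {p0 q0 : ℝ}
    (hp : ∀ t, dp k (γ t) = p0) (hq : ∀ t, dq k (γ t) = q0) {a : W k} (ha : rr k a = 0)
    (hlim : Tendsto (fun t => toQuot (GG k) (γ t)) l (𝓝 (toQuot (GG k) a))) :
    Tendsto (fun t => Real.cos (dz k (γ t))) l (𝓝 (Real.cos (dz k a))) ∧
    q0 = p0 * Real.cos (dz k a) ∧ (Real.cos (dz k a)) ^ 2 = 1 ∧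
    ∀ i, Tendsto (fun t => du k i (γ t)) l (𝓝 0) ∧ Tendsto (fun t => dv k i (γ t)) l (𝓝 0) := by
  have hne : l.NeBot := by
    rcases hl with rfl | rfl <;> infer_instance
  set N : ℝ := (1 + p0 ^ 2 + q0 ^ 2) / 2 with hN
  have hN0 : N ≠ 0 := by positivity
  have hNN : ∀ t, NN k (γ t) = N := by
    intro t
    rw [NN, hp, hq]
  have cz : Tendsto (fun t => Real.cos (dz k (γ t))) l (𝓝 (Real.cos (dz k a))) := by
    refine tendsto_of_invariant (F := fun x : W k => Real.cos (dz k x))
      (Real.continuous_cos.comp (dz k).continuous) ?_ hlim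
    rintro g ⟨b, c, rfl⟩ x
    exact cos_trans _ _
  have cy : Tendsto (fun t => Real.cos (dy k (γ t))) l (𝓝 (Real.cos (dy k a))) := by
    refine tendsto_of_invariant (F := fun x : W k => Real.cos (dy k x))
      (Real.continuous_cos.comp (dy k).continuous) ?_ hlim
    rintro g ⟨b, c, rfl⟩ x
    exact cos_trans _ _
  have sy : Tendsto (fun t => Real.sin (dy k (γ t))) l (𝓝 (Real.sin (dy k a))) := by
    refine tendsto_of_invariant (F := fun x : W k => Real.sin (dy k x))
      (Real.continuous_sin.comp (dy k).continuous) ?_ hlim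
    rintro g ⟨b, c, rfl⟩ x
    exact sin_trans _ _
  have tu : ∀ i, Tendsto (fun t => du k i (γ t)) l (𝓝 (du k i a)) := by
    intro i
    refine tendsto_of_invariant (F := fun x : W k => du k i x) (du k i).continuous ?_ hlim
    rintro g ⟨b, c, rfl⟩ x
    rfl
  have tv : ∀ i, Tendsto (fun t => dv k i (γ t)) l (𝓝 (dv k i a)) := by
    intro i
    refine tendsto_of_invariant (F := fun x : W k => dv k i x) (dv k i).continuous ?_ hlim
    rintro g ⟨b, c, rfl⟩ x
    rfl
  have hcos : (Real.cos (dz k a)) ^ 2 = 1 := by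
    have h1 := Real.sin_sq_add_cos_sq (dz k a)
    have h2 : Real.sin (dz k a) = 0 := ha
    rw [h2] at h1
    linarith
  have dY : ∀ t, HasDerivAt (fun t => dy k (γ t))
      ((q0 - p0 * Real.cos (dz k (γ t))) / N) t := by
    intro t
    have h := (dy k).hasFDerivAt.comp_hasDerivAt t (hγ t)
    have e : dy k (XX m k (γ t)) = (q0 - p0 * Real.cos (dz k (γ t))) / N := by
      rw [← hNN t, ← hp t, ← hq t]; rfl
    rw [e] at h
    exact h
  have dU : ∀ i t, HasDerivAt (fun t => du k i (γ t)) (- dv k i (γ t) / N) t := by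
    intro i t
    have h := (du k i).hasFDerivAt.comp_hasDerivAt t (hγ t)
    have e : du k i (XX m k (γ t)) = - dv k i (γ t) / N := by
      rw [← hNN t]; rfl
    rw [e] at h
    exact h
  have dV : ∀ i t, HasDerivAt (fun t => dv k i (γ t)) (du k i (γ t) / N) t := by
    intro i t
    have h := (dv k i).hasFDerivAt.comp_hasDerivAt t (hγ t)
    have e : dv k i (XX m k (γ t)) = du k i (γ t) / N := by
      rw [← hNN t]; rfl
    rw [e] at h
    exact h
  have h1 : (q0 - p0 * Real.cos (dz k a)) / N = 0 :=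
    angle_limit_zero hl dY cy sy ((tendsto_const_nhds.sub (cz.const_mul p0)).div_const N)
  have h2 : q0 = p0 * Real.cos (dz k a) := by
    rcases div_eq_zero_iff.1 h1 with h | h
    · linarith
    · exact absurd h hN0
  refine ⟨cz, h2, hcos, fun i => ?_⟩
  have h3 : - dv k i a / N = 0 := deriv_limit_zero hl (dU i) (tu i) ((tv i).neg.div_const N)
  have h4 : du k i a / N = 0 := deriv_limit_zero hl (dV i) (tv i) ((tu i).div_const N)
  have h5 : dv k i a = 0 := by
    rcases div_eq_zero_iff.1 h3 with h | h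
    · linarith
    · exact absurd h hN0
  have h6 : du k i a = 0 := by
    rcases div_eq_zero_iff.1 h4 with h | h
    · exact h
    · exact absurd h hN0
  have t1 := tu i
  have t2 := tv i
  rw [h6] at t1
  rw [h5] at t2
  exact ⟨t1, t2⟩

theorem no_singularPeriodicOrbit (m k : ℕ) (γ : ℝ → W k) :
    ¬ IsSingularPeriodicOrbit (GG k) (hh k) (rr k) (XX m k) γ := by
  rintro ⟨hγ, ⟨a, _, ha, hla⟩, ⟨b, _, hb, hlb⟩⟩
  have hder : ∀ t, HasDerivAt γ (XX m k (γ t)) t := fun t => (hγ t).2.2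
  -- `p` and `q` are constant
  have hconst : ∀ L : W k →L[ℝ] ℝ, (∀ x, L (XX m k x) = 0) → ∀ t, L (γ t) = L (γ 0) := by
    intro L hL t
    have hd : ∀ t, HasDerivAt (fun t => L (γ t)) 0 t := by
      intro t
      have h := L.hasFDerivAt.comp_hasDerivAt t (hder t)
      rw [hL] at h
      exact h
    exact is_const_of_deriv_eq_zero (fun t => (hd t).differentiableAt) (fun t => (hd t).deriv) t 0
  have hp := hconst (dp k) (fun x => rfl)
  have hq := hconst (dq k) (fun x => rfl)
  obtain ⟨c1, q1, s1, w1⟩ := end_analysis (Or.inl rfl) hder hp hq ha hla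
  obtain ⟨c2, q2, s2, w2⟩ := end_analysis (Or.inr rfl) hder hp hq hb hlb
  set p0 := dp k (γ 0) with hp0
  set q0 := dq k (γ 0) with hq0
  -- `p² + q² = 1`
  have hpq : p0 ^ 2 + q0 ^ 2 = 1 := by
    have h1 : ∀ t, ∑ i, (du k i (γ t) ^ 2 + dv k i (γ t) ^ 2) = 1 - p0 ^ 2 - q0 ^ 2 := by
      intro t
      rw [hh_eq (hγ t).1, hp t, hq t]
    have h2 : Tendsto (fun t => ∑ i, (du k i (γ t) ^ 2 + dv k i (γ t) ^ 2)) atTop
        (𝓝 (∑ i : Fin k, ((0 : ℝ) ^ 2 + (0 : ℝ) ^ 2))) :=
      tendsto_finsetSum _ fun i _ => ((w1 i).1.pow 2).add ((w1 i).2.pow 2)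
    simp only [h1] at h2
    have h3 := tendsto_nhds_unique h2 tendsto_const_nhds
    simp at h3
    linarith
  have hp00 : p0 ≠ 0 := by
    intro h
    rw [h] at q1 hpq
    rw [q1] at hpq
    norm_num at hpq
  have hcc : Real.cos (dz k a) = Real.cos (dz k b) := by
    have : p0 * Real.cos (dz k a) = p0 * Real.cos (dz k b) := by rw [← q1, ← q2]
    exact mul_left_cancel₀ hp00 this
  rw [← hcc] at c2
  have hN0 : (1 + p0 ^ 2 + q0 ^ 2) / 2 ≠ 0 := by positivity
  refine cos_limits_ne (z := fun t => dz k (γ t)) (c := p0 / ((1 + p0 ^ 2 + q0 ^ 2) / 2)) (m := m)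
    (div_ne_zero hp00 hN0) ?_ (fun t => (hγ t).2.1) c1 c2
  intro t
  have h := (dz k).hasFDerivAt.comp_hasDerivAt t (hder t)
  refine h.congr_deriv ?_
  have e : dz k (XX m k (γ t)) = Real.sin (dz k (γ t)) ^ m * dp k (γ t) / NN k (γ t) := rfl
  rw [e, NN, hp t, hq t]
  ring

/-- **Counterexamples to the singular Weinstein conjecture, for every order and dimension.**
For all `m ≥ 1` and `n = k + 1 ≥ 1` there is a compact `b^m`-contact manifold of dimension `2n + 1`
whose `b^m`-Reeb field has no singular periodic orbit. -/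
theorem result (m k : ℕ) (hm : 1 ≤ m) :
    ∃ (Γ : Subgroup (Equiv.Perm (W k))) (h ρ : W k → ℝ) (α : BForm (W k)) (X : W k → W k)
      (c : W k → ℝ), IsBContact Γ h ρ m (k + 1) α ∧ IsReeb Γ h ρ m α X c ∧
      ∀ γ : ℝ → W k, ¬ IsSingularPeriodicOrbit Γ h ρ X γ :=
  ⟨GG k, hh k, rr k, alpha m k, XX m k, cc k, isBContact m k hm, isReeb m k,
    no_singularPeriodicOrbit m k⟩

end Pool.Agent.Results.MP_4878e4_gt.NoSingularOrbit
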